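import Pool.Agent.N44.NS.Defs

/-!
# Project CR (a counterexample to Connes' rigidity conjecture): definitions
-/

set_option autoImplicit false

namespace Pool.Agent.N44.CR

open Pool.Agent.N44.NS (E3 el)

/-- Property (T), with a finite Kazhdan pair. -/
def KT (G : Type) [Group G] : Prop :=
  ∃ S : Finset G, ∃ ε : ℝ, 0 < ε ∧
    ∀ (E : Type) [NormedAddCommGroup E] [InnerProductSpace ℂ E] [CompleteSpace E]
      (π : G →* unitary (E →L[ℂ] E)),
      (∃ v : E, ‖v‖ = 1 ∧ ∀ s ∈ S, ‖(π s : E →L[ℂ] E) v - v‖ < ε) →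
      ∃ w : E, w ≠ 0 ∧ ∀ g : G, (π g : E →L[ℂ] E) w = w

/-! ### Semidirect products with abelian kernel -/

/-- the semidirect product `B ⋊ Γ` of an additive abelian group `B` with a group `Γ` -/
@[ext] structure SD (B Γ : Type) where
  b : B
  g : Γ

namespace SD

variable {B Γ : Type} [AddCommGroup B] [Group Γ] [DistribMulAction Γ B]

instance : Mul (SD B Γ) := ⟨fun x y => ⟨x.b + x.g • y.b, x.g * y.g⟩⟩
instance : One (SD B Γ) := ⟨⟨0, 1⟩⟩
instance : Inv (SD B Γ) := ⟨fun x => ⟨-(x.g⁻¹ • x.b), x.g⁻¹⟩⟩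

@[simp] theorem mul_b (x y : SD B Γ) : (x * y).b = x.b + x.g • y.b := rfl
@[simp] theorem mul_g (x y : SD B Γ) : (x * y).g = x.g * y.g := rfl
@[simp] theorem one_b : (1 : SD B Γ).b = 0 := rfl
@[simp] theorem one_g : (1 : SD B Γ).g = 1 := rfl
@[simp] theorem inv_b (x : SD B Γ) : (x⁻¹).b = -(x.g⁻¹ • x.b) := rfl
@[simp] theorem inv_g (x : SD B Γ) : (x⁻¹).g = x.g⁻¹ := rfl

instance : Group (SD B Γ) :=
  Group.ofLeftAxioms
    (fun x y z => by
      apply SD.ext
      · simp only [mul_b, mul_g, smul_add, mul_smul, add_assoc]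
      · simp only [mul_g, mul_assoc])
    (fun x => by
      apply SD.ext
      · simp only [mul_b, one_b, one_g, one_smul, zero_add]
      · simp only [mul_g, one_g, one_mul])
    (fun x => by
      apply SD.ext
      · simp only [mul_b, inv_b, inv_g, one_b, neg_add_cancel]
      · simp only [mul_g, inv_g, one_g, inv_mul_cancel])

/-- the kernel -/
def inl : Multiplicative B →* SD B Γ where
  toFun b := ⟨b.toAdd, 1⟩
  map_one' := rfl
  map_mul' a b := by
    apply SD.ext
    · simp only [mul_b, one_smul, toAdd_mul]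
    · simp only [mul_g, mul_one]

/-- the complement -/
def inr : Γ →* SD B Γ where
  toFun γ := ⟨0, γ⟩
  map_one' := rfl
  map_mul' a b := by
    apply SD.ext
    · simp only [mul_b, smul_zero, add_zero]
    · simp only [mul_g]

end SD

/-! ### The modules -/

section modules

variable (V : Type) [AddCommGroup V]

/-- the characters of `V` with values in `F_2` -/
abbrev X : Type := V →+ ZMod 2

variable {V}

/-- `θ_v (x) = x(v)`, lifted to `{0, 1} ⊆ Z/4` -/
def th (v : V) : X V → ZMod 4 := fun x => ((x v).val : ZMod 4)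

/-- the form of `v` -/
def ph (v : V) : X V → X V → ZMod 2 := fun x y => x v * y v

variable (V)

/-- the subgroup generated by the `θ_v` -/
def A1s : AddSubgroup (X V → ZMod 4) := AddSubgroup.closure (Set.range th)

/-- the subgroup generated by the forms of the `v` -/
def Ws : AddSubgroup (X V → X V → ZMod 2) := AddSubgroup.closure (Set.range ph)

/-- the group `A_1` -/
def A1 : Type := A1s V

/-- the group `W` -/
def W : Type := Ws V

instance : AddCommGroup (A1 V) := inferInstanceAs (AddCommGroup (A1s V))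
instance : AddCommGroup (W V) := inferInstanceAs (AddCommGroup (Ws V))

variable {V}

/-- `θ_v` as an element of `A_1` -/
def tha (v : V) : A1 V := ⟨th v, AddSubgroup.subset_closure ⟨v, rfl⟩⟩

/-- the form of `v` as an element of `W` -/
def pha (v : V) : W V := ⟨ph v, AddSubgroup.subset_closure ⟨v, rfl⟩⟩

/-- the value of an element of `A_1` -/
def A1.val (q : A1 V) : X V → ZMod 4 := Subtype.val q

/-- the value of an element of `W` -/
def W.val (b : W V) : X V → X V → ZMod 2 := Subtype.val b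

theorem A1.ext' {q r : A1 V} (h : ∀ x, q.val x = r.val x) : q = r := Subtype.ext (funext h)

theorem W.ext' {q r : W V} (h : ∀ x y, q.val x y = r.val x y) : q = r :=
  Subtype.ext (funext fun x => funext (h x))

@[simp] theorem A1.val_add (q r : A1 V) (x : X V) : (q + r).val x = q.val x + r.val x := rfl
@[simp] theorem A1.val_zero (x : X V) : (0 : A1 V).val x = 0 := rfl
@[simp] theorem A1.val_neg (q : A1 V) (x : X V) : (-q).val x = -q.val x := rfl
@[simp] theorem A1.val_tha (v : V) (x : X V) : (tha v).val x = ((x v).val : ZMod 4) := rfl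
@[simp] theorem W.val_add (q r : W V) (x y : X V) : (q + r).val x y = q.val x y + r.val x y := rfl
@[simp] theorem W.val_zero (x y : X V) : (0 : W V).val x y = 0 := rfl
@[simp] theorem W.val_neg (q : W V) (x y : X V) : (-q).val x y = -q.val x y := rfl
@[simp] theorem W.val_pha (v : V) (x y : X V) : (pha v).val x y = x v * y v := rfl

theorem A1.ind {p : A1 V → Prop} (h1 : ∀ v, p (tha v)) (h0 : p 0)
    (ha : ∀ q r, p q → p r → p (q + r)) (hn : ∀ q, p q → p (-q)) (q : A1 V) : p q := by
  obtain ⟨q, hq⟩ := q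
  induction hq using AddSubgroup.closure_induction with
  | mem x hx =>
    obtain ⟨v, rfl⟩ := hx
    exact h1 v
  | zero => exact h0
  | add x y hx hy h h' => exact ha ⟨x, hx⟩ ⟨y, hy⟩ h h'
  | neg x hx h => exact hn ⟨x, hx⟩ h

theorem W.ind {p : W V → Prop} (h1 : ∀ v, p (pha v)) (h0 : p 0)
    (ha : ∀ q r, p q → p r → p (q + r)) (hn : ∀ q, p q → p (-q)) (q : W V) : p q := by
  obtain ⟨q, hq⟩ := q
  induction hq using AddSubgroup.closure_induction with
  | mem x hx =>
    obtain ⟨v, rfl⟩ := hx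
    exact h1 v
  | zero => exact h0
  | add x y hx hy h h' => exact ha ⟨x, hx⟩ ⟨y, hy⟩ h h'
  | neg x hx h => exact hn ⟨x, hx⟩ h

section action

variable {Γ : Type} [Group Γ] [DistribMulAction Γ V]

/-- `x ∘ γ` -/
def tw (γ : Γ) (x : X V) : X V := x.comp (DistribSMul.toAddMonoidHom V γ)

@[simp] theorem tw_apply (γ : Γ) (x : X V) (v : V) : tw γ x v = x (γ • v) := rfl

theorem tw_mul (γ δ : Γ) (x : X V) : tw (γ * δ) x = tw δ (tw γ x) := by
  ext v
  simp [mul_smul]

theorem tw_one (x : X V) : tw (1 : Γ) x = x := by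
  ext v
  simp

theorem A1.mem_act (γ : Γ) (q : A1 V) : (fun x => q.val (tw γ x)) ∈ A1s V := by
  refine A1.ind (p := fun q => (fun x => q.val (tw γ x)) ∈ A1s V) ?_ ?_ ?_ ?_ q
  · intro v
    exact AddSubgroup.subset_closure ⟨γ • v, rfl⟩
  · exact zero_mem _
  · intro q r hq hr
    exact add_mem hq hr
  · intro q hq
    exact neg_mem hq

theorem W.mem_act (γ : Γ) (q : W V) : (fun x y => q.val (tw γ x) (tw γ y)) ∈ Ws V := by
  refine W.ind (p := fun q => (fun x y => q.val (tw γ x) (tw γ y)) ∈ Ws V) ?_ ?_ ?_ ?_ q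
  · intro v
    exact AddSubgroup.subset_closure ⟨γ • v, rfl⟩
  · exact zero_mem _
  · intro q r hq hr
    exact add_mem hq hr
  · intro q hq
    exact neg_mem hq

instance : DistribMulAction Γ (A1 V) where
  smul γ q := ⟨fun x => q.val (tw γ x), A1.mem_act γ q⟩
  one_smul q := A1.ext' fun x => by
    change q.val (tw (1 : Γ) x) = q.val x
    rw [tw_one]
  mul_smul γ δ q := A1.ext' fun x => by
    change q.val (tw (γ * δ) x) = q.val (tw δ (tw γ x))
    rw [tw_mul]
  smul_zero _ := rfl
  smul_add _ _ _ := rfl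

instance : DistribMulAction Γ (W V) where
  smul γ q := ⟨fun x y => q.val (tw γ x) (tw γ y), W.mem_act γ q⟩
  one_smul q := W.ext' fun x y => by
    change q.val (tw (1 : Γ) x) (tw (1 : Γ) y) = q.val x y
    rw [tw_one, tw_one]
  mul_smul γ δ q := W.ext' fun x y => by
    change q.val (tw (γ * δ) x) (tw (γ * δ) y) = q.val (tw δ (tw γ x)) (tw δ (tw γ y))
    rw [tw_mul, tw_mul]
  smul_zero _ := rfl
  smul_add _ _ _ := rfl

@[simp] theorem A1.val_smul (γ : Γ) (q : A1 V) (x : X V) : (γ • q).val x = q.val (tw γ x) := rfl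
@[simp] theorem W.val_smul (γ : Γ) (q : W V) (x y : X V) :
    (γ • q).val x y = q.val (tw γ x) (tw γ y) := rfl
@[simp] theorem smul_tha (γ : Γ) (v : V) : γ • (tha v : A1 V) = tha (γ • v) := rfl
@[simp] theorem smul_pha (γ : Γ) (v : V) : γ • (pha v : W V) = pha (γ • v) := rfl

end action

end modules

/-- the first group `A_1 ⋊ Γ` -/
abbrev G1 (V Γ : Type) [AddCommGroup V] : Type := SD (A1 V) Γ

/-- the second group `(V × W) ⋊ Γ` -/
abbrev G2 (V Γ : Type) [AddCommGroup V] : Type := SD (V × W V) Γ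

/-! ### Columns -/

/-- the columns `A^3` -/
def Col (A : Type) : Type := Fin 3 → A

instance (A : Type) [Ring A] : AddCommGroup (Col A) := inferInstanceAs (AddCommGroup (Fin 3 → A))

instance (A : Type) [Ring A] : DistribMulAction (E3 A) (Col A) where
  smul γ v := Matrix.mulVec (γ.1.1 : Matrix (Fin 3) (Fin 3) A) (v : Fin 3 → A)
  one_smul v := Matrix.one_mulVec (v : Fin 3 → A)
  mul_smul γ δ v := (Matrix.mulVec_mulVec (v : Fin 3 → A) (γ.1.1 : Matrix (Fin 3) (Fin 3) A)
    (δ.1.1 : Matrix (Fin 3) (Fin 3) A)).symm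
  smul_zero γ := Matrix.mulVec_zero (γ.1.1 : Matrix (Fin 3) (Fin 3) A)
  smul_add γ v w := Matrix.mulVec_add (γ.1.1 : Matrix (Fin 3) (Fin 3) A) (v : Fin 3 → A)
    (w : Fin 3 → A)

/-- the first unit column -/
def e1 (A : Type) [Ring A] : Col A := (Pi.single 0 1 : Fin 3 → A)

/-- virtual isomorphism, as in the frozen statement -/
def VI (G H : Type) [Group G] [Group H] : Prop :=
  ∃ (F : Subgroup G) (K : Subgroup H) (_ : F.Normal) (_ : K.Normal),
    Finite F ∧ Finite K ∧
    ∃ (G₀ : Subgroup (G ⧸ F)) (H₀ : Subgroup (H ⧸ K)),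
      G₀.index ≠ 0 ∧ H₀.index ≠ 0 ∧ Nonempty (G₀ ≃* H₀)

end Pool.Agent.N44.CR
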