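import Pool.Agent.N44.CR.Defs

/-!
# Project CR (a counterexample to Connes' rigidity conjecture): statements of the leaves
-/

set_option autoImplicit false

namespace Pool.Agent.N44.CR

open Pool.Agent.N44.NS (E3 el)

noncomputable section

/-! ### From an isomorphism of group algebras to the group von Neumann algebras -/

/-- `Ψ` maps the group elements of `G` to an orthonormal system of unitaries -/
structure Good {G H : Type} [Group G] [Group H]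
    (Ψ : MonoidAlgebra ℂ G →ₐ[ℂ] MonoidAlgebra ℂ H) : Prop where
  surj : Function.Surjective Ψ
  star : ∀ (g : G) (h : H), (Ψ (MonoidAlgebra.single g⁻¹ 1)).coeff h =
    star ((Ψ (MonoidAlgebra.single g 1)).coeff h⁻¹)
  trace : ∀ g : G, g ≠ 1 → (Ψ (MonoidAlgebra.single g 1)).coeff 1 = 0

/-- UN1: the unitary operator -/
def S_UN1 : Prop :=
  ∀ (G H : Type) [Group G] [Group H] (Ψ : MonoidAlgebra ℂ G →ₐ[ℂ] MonoidAlgebra ℂ H), Good Ψ →
    ∃ U : lp (fun _ : G => ℂ) 2 ≃ₗᵢ[ℂ] lp (fun _ : H => ℂ) 2,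
      ∀ (f : lp (fun _ : G => ℂ) 2) (a : MonoidAlgebra ℂ G), (∀ g, f g = a.coeff g) →
        ∀ h, (U f) h = (Ψ a).coeff h

/-- UN2: the isomorphism of the group von Neumann algebras -/
def S_UN2 : Prop :=
  ∀ (G H : Type) [Group G] [Group H] (Ψ : MonoidAlgebra ℂ G →ₐ[ℂ] MonoidAlgebra ℂ H), Good Ψ →
    ∀ U : lp (fun _ : G => ℂ) 2 ≃ₗᵢ[ℂ] lp (fun _ : H => ℂ) 2,
      (∀ (f : lp (fun _ : G => ℂ) 2) (a : MonoidAlgebra ℂ G), (∀ g, f g = a.coeff g) →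
        ∀ h, (U f) h = (Ψ a).coeff h) →
    ∀ (A : Set (lp (fun _ : G => ℂ) 2 →L[ℂ] lp (fun _ : G => ℂ) 2))
      (B : Set (lp (fun _ : H => ℂ) 2 →L[ℂ] lp (fun _ : H => ℂ) 2)),
      A = {T | ∀ g : G, ∀ f f' : lp (fun _ : G => ℂ) 2,
              (∀ x : G, f' x = f (x * g)) → ∀ x : G, (T f') x = (T f) (x * g)} →
      B = {T | ∀ h : H, ∀ f f' : lp (fun _ : H => ℂ) 2,
              (∀ x : H, f' x = f (x * h)) → ∀ x : H, (T f') x = (T f) (x * h)} →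
      (∃ Φ : (lp (fun _ : G => ℂ) 2 →L[ℂ] lp (fun _ : G => ℂ) 2) →
              (lp (fun _ : H => ℂ) 2 →L[ℂ] lp (fun _ : H => ℂ) 2),
        Set.BijOn Φ A B ∧
        ∀ x ∈ A, ∀ y ∈ A,
          Φ (x + y) = Φ x + Φ y ∧ Φ (x * y) = Φ x * Φ y ∧
          Φ (star x) = star (Φ x) ∧ ∀ c : ℂ, Φ (c • x) = c • Φ x)

/-! ### The isomorphism of the group algebras -/

/-- FRM: `q ↦ b_q` -/
def S_FRM : Prop :=
  ∀ (V : Type) [AddCommGroup V], (∀ v : V, v + v = 0) →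
    (∀ v : V, (∀ x : X V, x v = 0) → v = 0) ∧
    ∃ b : A1 V →+ W V, (∀ v, b (tha v) = pha v) ∧ Function.Surjective b ∧
      (∀ (Γ : Type) [Group Γ] [DistribMulAction Γ V] (γ : Γ) (q : A1 V), b (γ • q) = γ • b q) ∧
      ∀ q, b q = 0 → ∃ v, q = tha v + tha v

/-- the evaluation of an element of the group algebra of `V` at the character `(-1)^x` -/
def ev {V : Type} [AddCommGroup V] (x : X V) :
    MonoidAlgebra ℂ (Multiplicative V) →ₐ[ℂ] ℂ :=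
  MonoidAlgebra.lift ℂ ℂ (Multiplicative V)
    { toFun := fun v => if x v.toAdd = 0 then 1 else -1
      map_one' := by simp
      map_mul' := by
        intro v w
        have h : ∀ a b : ZMod 2, (if a + b = 0 then (1 : ℂ) else -1) =
            (if a = 0 then 1 else -1) * (if b = 0 then 1 else -1) := by
          intro a b
          have h2 : ∀ a b : ZMod 2, (a + b = 0 ↔ ((a = 0 ∧ b = 0) ∨ (a ≠ 0 ∧ b ≠ 0))) := by decide
          have := h2 a b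
          by_cases ha : a = 0 <;> by_cases hb : b = 0 <;> simp_all
        simpa using h (x v.toAdd) (x w.toAdd) }

/-- GEN: the elements `g_q`, and the evaluations separate the points -/
def S_GEN : Prop :=
  ∀ (V : Type) [AddCommGroup V], (∀ v : V, v + v = 0) →
    (∀ a : MonoidAlgebra ℂ (Multiplicative V), (∀ x : X V, ev x a = 0) → a = 0) ∧
    ∀ q : A1 V, ∃ a : MonoidAlgebra ℂ (Multiplicative V), ∀ x : X V,
      ev x a = Complex.I ^ (q.val x).val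

/-- PSI: the isomorphism of the group algebras -/
def S_PSI : Prop :=
  ∀ (V Γ : Type) [AddCommGroup V] [Group Γ] [DistribMulAction Γ V], (∀ v : V, v + v = 0) →
    ∃ Ψ : MonoidAlgebra ℂ (G1 V Γ) →ₐ[ℂ] MonoidAlgebra ℂ (G2 V Γ), Good Ψ

/-- ASM: assembly of PSI -/
def S_ASM : Prop := S_FRM → S_GEN → S_PSI

/-! ### Property (T) -/

/-- HALF -/
def S_HALF : Prop :=
  ∀ (Q M N : Type) [AddCommGroup Q] [AddCommGroup M] [AddCommGroup N],
    (∀ m : M, m + m = 0) → (∀ n : N, n + n = 0) →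
    ∀ (E : Type) [NormedAddCommGroup E] [InnerProductSpace ℂ E] [CompleteSpace E]
      (π : Multiplicative Q →* unitary (E →L[ℂ] E)) (β : M →+ N →+ Q) (ξ : E) (d : ℝ),
      (∀ m n, ‖(π (Multiplicative.ofAdd (β m n)) : E →L[ℂ] E) ξ - ξ‖ ≤ d) →
      ∀ q ∈ AddSubgroup.closure {q : Q | ∃ m n, q = β m n},
        ‖(π (Multiplicative.ofAdd q) : E →L[ℂ] E) ξ - ξ‖ ≤ 2 * d

/-- SEMI -/
def S_SEMI : Prop :=
  ∀ (B Γ : Type) [AddCommGroup B] [Group Γ] [DistribMulAction Γ B], KT Γ → ∀ (a : B) (C : ℝ),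
    (∀ (E : Type) [NormedAddCommGroup E] [InnerProductSpace ℂ E] [CompleteSpace E]
      (π : Multiplicative B →* unitary (E →L[ℂ] E)) (ξ : E) (d : ℝ),
      (∀ γ : Γ, ‖(π (Multiplicative.ofAdd (γ • a)) : E →L[ℂ] E) ξ - ξ‖ ≤ d) →
      ∀ b : B, ‖(π (Multiplicative.ofAdd b) : E →L[ℂ] E) ξ - ξ‖ ≤ C * d) →
    KT (SD B Γ)

/-- ORB -/
def S_ORB : Prop :=
  ∀ (A : Type) [CommRing A], (∀ a : A, a + a = 0) →
    ∀ (E : Type) [NormedAddCommGroup E] [InnerProductSpace ℂ E] [CompleteSpace E]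
      (π : Multiplicative (A1 (Col A)) →* unitary (E →L[ℂ] E)) (ξ : E) (d : ℝ),
      (∀ γ : E3 A, ‖(π (Multiplicative.ofAdd (γ • (tha (e1 A) : A1 (Col A)))) : E →L[ℂ] E) ξ - ξ‖ ≤
        d) →
      ∀ b : A1 (Col A), ‖(π (Multiplicative.ofAdd b) : E →L[ℂ] E) ξ - ξ‖ ≤ 326 * d

/-- TTK: property (T) of `E_3(K[t])` -/
def S_TTK : Prop :=
  ∀ (K : Type) [Field K] [Fintype K], 256 ≤ Fintype.card K → KT (E3 (Polynomial K))

/-! ### No virtual isomorphism -/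

/-- FCS: an element with finitely many conjugates under a subgroup of finite index is scalar -/
def S_FCS : Prop :=
  ∀ (A : Type) [CommRing A] [IsDomain A] [Infinite A] (Γ₀ : Subgroup (E3 A)), Γ₀.FiniteIndex →
    ∀ c : E3 A, {x : E3 A | ∃ γ ∈ Γ₀, x = γ * c * γ⁻¹}.Finite →
      ∃ ζ : A, ζ ^ 3 = 1 ∧ (c.1.1 : Matrix (Fin 3) (Fin 3) A) = ζ • (1 : Matrix (Fin 3) (Fin 3) A)

/-- INV: there is no involution whose conjugates commute up to scalars from a finite set -/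
def S_INV : Prop :=
  ∀ (A : Type) [CommRing A] [IsDomain A] [Infinite A], (∀ a : A, a + a = 0) →
    ∀ (Γ₀ : Subgroup (E3 A)), Γ₀.FiniteIndex → ∀ (Z : Set A), Z.Finite → ∀ c : E3 A, c * c = 1 →
      (∀ γ ∈ Γ₀, ∃ ζ ∈ Z, (c.1.1 * (γ * c * γ⁻¹ : E3 A).1.1 : Matrix (Fin 3) (Fin 3) A) =
        ζ • ((γ * c * γ⁻¹ : E3 A).1.1 * c.1.1 : Matrix (Fin 3) (Fin 3) A)) → c = 1

/-- MAT: a normal subgroup of a subgroup of finite index, which is abelian of exponent four up to a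
finite normal subgroup, is finite -/
def S_MAT : Prop :=
  ∀ (A : Type) [CommRing A] [IsDomain A] [Infinite A], (∀ a : A, a + a = 0) →
    ∀ (Γ₀ C N : Subgroup (E3 A)), Γ₀.FiniteIndex → N ≤ C → Finite N →
      (∀ γ ∈ Γ₀, ∀ c ∈ C, γ * c * γ⁻¹ ∈ C) → (∀ γ ∈ Γ₀, ∀ c ∈ N, γ * c * γ⁻¹ ∈ N) →
      (∀ c ∈ C, ∀ c' ∈ C, c * c' * c⁻¹ * c'⁻¹ ∈ N) → (∀ c ∈ C, c ^ 4 ∈ N) → Finite C

/-- MATA: assembly of MAT -/
def S_MATA : Prop := S_FCS → S_INV → S_MAT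

/-- SQ: many squares in the subgroups of finite index of `A_1` -/
def S_SQ : Prop :=
  ∀ (V : Type) [AddCommGroup V] [Infinite V], (∀ v : V, v + v = 0) →
    (∀ q : A1 V, q + q + q + q = 0) ∧
    ∀ B : AddSubgroup (A1 V), B.FiniteIndex → {r : A1 V | ∃ q ∈ B, r = q + q}.Infinite

/-- GRP: no virtual isomorphism, the group theoretic part -/
def S_GRP : Prop :=
  ∀ (B₁ B₂ Γ : Type) [AddCommGroup B₁] [AddCommGroup B₂] [Group Γ] [DistribMulAction Γ B₁]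
    [DistribMulAction Γ B₂], (∀ q : B₁, q + q + q + q = 0) → (∀ q : B₂, q + q = 0) →
    (∀ B : AddSubgroup B₁, B.FiniteIndex → {r : B₁ | ∃ q ∈ B, r = q + q}.Infinite) →
    (∀ (Γ₀ C N : Subgroup Γ), Γ₀.FiniteIndex → N ≤ C → Finite N →
      (∀ γ ∈ Γ₀, ∀ c ∈ C, γ * c * γ⁻¹ ∈ C) → (∀ γ ∈ Γ₀, ∀ c ∈ N, γ * c * γ⁻¹ ∈ N) →
      (∀ c ∈ C, ∀ c' ∈ C, c * c' * c⁻¹ * c'⁻¹ ∈ N) → (∀ c ∈ C, c ^ 4 ∈ N) → Finite C) →
    ¬ VI (SD B₁ Γ) (SD B₂ Γ)

/-- CNT: countability -/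
def S_CNT : Prop :=
  ∀ (K : Type) [Field K] [Fintype K], Countable (G1 (Col (Polynomial K)) (E3 (Polynomial K))) ∧
    Countable (G2 (Col (Polynomial K)) (E3 (Polynomial K)))

end

end Pool.Agent.N44.CR
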